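import Pool.Agent.W2helper96.Sq.Geo

set_option autoImplicit false

/-!
# Squares of graphs of girth at least five: the equivalence fails in the presence of pendant
vertices

The question asks whether, for every simple graph `G` on at least five vertices without cycles of
length at most `4`, the square `G²` is generically globally rigid in `ℝ³` if and only if `G²` is
`4`-connected and `5 G` is highly `6`-tree-connected.

`result` shows that the answer is negative, and that the failure is systematic: whenever the square
of `G` is `4`-connected and globally rigid and `u` is a vertex of degree at least `3`, attaching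
`m ≥ 1` pendant vertices at `u` gives a graph whose square is again `4`-connected and globally
rigid, while five copies of it do not even contain six edge-disjoint spanning trees. Starting from
the Petersen graph this gives counterexamples of girth at least five on `n` vertices, for every
`n ≥ 11`.
-/

namespace Pool.Agent.Results.MP_f1f412_co.PendantVertices

open Pool.Agent.W2helper96.Sq SimpleGraph

/-- The neighbours of the vertices of the Petersen graph. -/
def petNbr : Fin 10 → List (Fin 10) :=
  ![[1, 4, 5], [0, 2, 6], [1, 3, 7], [2, 4, 8], [3, 0, 9],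
    [0, 7, 8], [1, 8, 9], [2, 9, 5], [3, 5, 6], [4, 6, 7]]

/-- The Petersen graph. -/
def petersen : SimpleGraph (Fin 10) where
  Adj a b := b ∈ petNbr a
  symm := ⟨by
    have h : ∀ a b : Fin 10, b ∈ petNbr a → a ∈ petNbr b := by decide
    exact fun a b hab => h a b hab⟩
  loopless := ⟨by
    have h : ∀ a : Fin 10, ¬ a ∈ petNbr a := by decide
    exact fun a ha => h a ha⟩

theorem petersen_noShortCycle : NoShortCycle petersen := by
  rw [noShortCycle_iff]
  have h3 : ∀ a, ∀ b ∈ petNbr a, ∀ c ∈ petNbr b, ¬ a ∈ petNbr c := by decide
  have h4 : ∀ a c b d : Fin 10, a = c ∨ b = d ∨ ¬ (b ∈ petNbr a ∧ c ∈ petNbr b ∧ d ∈ petNbr c ∧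
      a ∈ petNbr d) := by decide +kernel
  refine ⟨fun a b c e1 e2 e3 => h3 a b e1 c e2 e3, fun a b c d hac hbd e1 e2 e3 e4 => ?_⟩
  rcases h4 a c b d with h | h | h
  · exact hac h
  · exact hbd h
  · exact h ⟨e1, e2, e3, e4⟩

theorem petersen_square (a b : Fin 10) (hab : a ≠ b) : (square petersen).Adj a b := by
  refine ⟨hab, ?_⟩
  have h : ∀ a b : Fin 10, a ≠ b → b ∈ petNbr a ∨ ∃ w, w ∈ petNbr a ∧ b ∈ petNbr w := by decide
  exact h a b hab

theorem petersen_degree : 3 ≤ (petersen.neighborSet 0).ncard := by
  have h : petersen.neighborSet 0 = ({1, 4, 5} : Finset (Fin 10)) := by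
    ext x
    have : ∀ x : Fin 10, x ∈ petNbr 0 ↔ x ∈ ({1, 4, 5} : Finset (Fin 10)) := by decide
    exact this x
  rw [h, Set.ncard_coe_finset]
  decide

theorem petersen_kConnected : KConnected 4 (square petersen) := by
  refine ⟨by simp, fun S hS hS4 => ?_⟩
  have hne : Sᶜ.Nonempty := by
    rw [Set.nonempty_compl]
    rintro rfl
    rw [Set.ncard_univ, Nat.card_eq_fintype_card, Fintype.card_fin] at hS4
    omega
  have : Nonempty (Sᶜ : Set (Fin 10)) := hne.to_subtype
  refine Connected.mk fun x y => ?_
  by_cases hxy : x = y
  · rw [hxy]
  · refine Adj.reachable ?_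
    rw [SimpleGraph.comap_adj]
    exact petersen_square _ _ fun h => hxy (Subtype.ext h)

theorem petersen_globallyRigid : GloballyRigid (square petersen) := by
  refine ⟨exists_isGeneric _, fun p _ q hq u v => ?_⟩
  by_cases huv : u = v
  · subst huv; simp
  · exact hq u v (petersen_square u v huv)

/-- (1) For every finite graph `G` without cycles of length at most `4` whose square is
`4`-connected and generically globally rigid in `ℝ³`, every vertex `u` of degree at least `3` and
every `m ≥ 1`, the graph obtained from `G` by attaching `m` pendant vertices at `u` has no cycle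
of length at most `4`, its square is `4`-connected and generically globally rigid in `ℝ³`, and its
five-fold multiple does not contain six edge-disjoint spanning trees.
(2) The Petersen graph satisfies the hypotheses of (1), so for every `n ≥ 11` there is such a
graph on `n` vertices: (i) holds and (ii) fails. -/
theorem result :
    (∀ (V : Type) [Finite V] (G : SimpleGraph V) (u : V) (m : ℕ), NoShortCycle G →
      KConnected 4 (square G) → GloballyRigid (square G) → 3 ≤ (G.neighborSet u).ncard → 1 ≤ m →
        NoShortCycle (addPendants G u m) ∧
        KConnected 4 (square (addPendants G u m)) ∧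
        GloballyRigid (square (addPendants G u m)) ∧
        ¬ KTreeConnected 6 (copyEnds 5 (addPendants G u m)) Set.univ) ∧
    (∀ n : ℕ, 11 ≤ n → ∃ (V : Type) (_ : Fintype V) (G : SimpleGraph V), Fintype.card V = n ∧
      NoShortCycle G ∧ KConnected 4 (square G) ∧ GloballyRigid (square G) ∧
      ¬ HighlySixTreeConnected G) := by
  have h1 : ∀ (V : Type) [Finite V] (G : SimpleGraph V) (u : V) (m : ℕ), NoShortCycle G →
      KConnected 4 (square G) → GloballyRigid (square G) → 3 ≤ (G.neighborSet u).ncard → 1 ≤ m →
        NoShortCycle (addPendants G u m) ∧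
        KConnected 4 (square (addPendants G u m)) ∧
        GloballyRigid (square (addPendants G u m)) ∧
        ¬ KTreeConnected 6 (copyEnds 5 (addPendants G u m)) Set.univ := by
    intro V _ G u m hG hk hr hu hm
    refine ⟨addPendants_noShortCycle hG, addPendants_kConnected hu hk,
      addPendants_globallyRigid hu hr, ?_⟩
    refine not_six_of_leaf (x := Sum.inr ⟨0, hm⟩) (u := Sum.inl u) ?_ (by simp) _
    rintro (y | j) h
    · rw [ap_rl] at h
      rw [h]
    · exact absurd h (by simp)
  refine ⟨h1, fun n hn => ?_⟩
  obtain ⟨h2, h3, h4, h5⟩ := h1 (Fin 10) petersen 0 (n - 10) petersen_noShortCycle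
    petersen_kConnected petersen_globallyRigid petersen_degree (by omega)
  refine ⟨Fin 10 ⊕ Fin (n - 10), inferInstance, addPendants petersen 0 (n - 10), ?_, h2, h3, h4,
    fun h => h5 h.1⟩
  rw [Fintype.card_sum, Fintype.card_fin, Fintype.card_fin]
  omega

end Pool.Agent.Results.MP_f1f412_co.PendantVertices
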